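import Pool.Agent.H660.UK.Disj

/-!
# `k`-SetDisjointness: about `N ^ k` space for data structures that compute with unknown inputs

A family of `m` subsets of a universe with `n` elements, `m * n ≤ N` (so of total size at most `N`),
is preprocessed, for the queries whether `k` of the sets have a common element. For each set and each
element it is known that the element belongs to the set, or known that it does not, or unknown. The
cells of the memory contain elements of an ordered set `D` of states of knowledge, and each of them
is an arbitrary function of the knowledge about the family that respects the order: more knowledge
about the family gives more knowledge in the cell (unlimited preprocessing). The query reads cells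
adaptively, and its answer is not lost when the contents of the memory become larger. `D` is any
partially ordered set in which the elements below a given one form a chain of real numbers
(`TreeLike D`).

* `D` may be the flat order over any set `A`, for instance the set of the machine words of any
  length: a cell is unknown or contains a word. So the structures may store arbitrary functions of
  the family, as long as they store nothing that is not yet determined by what is known.
* `D` may be `ℝ`; these are the monotone data structures.

(1) For all `N ≥ k ≥ 2`, `0 < δ ≤ 1 / 2` and `t ≥ 1` there are `m`, `n` with `m * n ≤ N` such that
every random structure of this kind for families of `m` subsets of a universe with `n` elements which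
has advantage `δ` and reads at most `t` cells on the average has at least
`δ * (δ * N / (20 * k ^ 3 * t * log₂ (N / δ))) ^ k` cells. So constant query time needs space
`Ω~(N ^ k)` in this model. The answer has to be yes as soon as the elements of the sets are known
(everything else may be unknown), and not yes if everything is known and there is no common element
(`KSolves`).

(2) For all `k`, `m`, `n` there is a three-valued structure with `m ^ k` cells and one probe, which
makes no errors, and which finds, for every partial knowledge about the family, whether the sets of
the query are known to have a common element and whether they are known to have none.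

Proof of (1). Declare unknown what does not belong to the sets. The contents of a cell is then below
its contents for the family of full sets, so that it lies in a chain of real numbers. This gives a
monotone data structure with real cells, and the bound of the library result `AdaptiveMonotone`
applies.
-/

set_option autoImplicit false

namespace Pool.Agent.Results.MP_d985bf_lc.UnknownInputStructures

open Pool.Agent.H698.HF Pool.Agent.H660.UK
open Pool.Agent.H525R4.Mono (Meet)
open Flat (unknown known)

theorem result :
    -- (1) the lower bound
    (∀ (k N : ℕ) (δ t : ℝ), 2 ≤ k → k ≤ N → 0 < δ → δ ≤ 1 / 2 → 1 ≤ t →
      ∃ m n : ℕ, m * n ≤ N ∧ ∀ (D : Type) [PartialOrder D], TreeLike D → ∀ (s : ℕ) (Ω : Type)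
        [Fintype Ω] (p : Ω → ℝ) (S : Ω → KDisj D k m n s), KSolves p S δ t →
          δ * (δ * N / (20 * k ^ 3 * t * Real.logb 2 (N / δ))) ^ k ≤ s) ∧
    -- (2) the table
    (∀ k m n : ℕ, ∃ T : KDisj (Flat Bool) k m n (m ^ k),
      KSolves (fun _ : Unit => 1) (fun _ => T) (1 / 2) 1 ∧
      (∀ v M, (T.reads v M).card = 1) ∧
      ∀ v : Fin k → Fin m, ∃ c : Fin (m ^ k), ∀ P : Know (Fin m × Fin n),
        T.reads v (T.mem P) = {c} ∧
        (T.cell c P = known true ↔
          ∀ F : Fin m → Finset (Fin n), Le P (full (bits F)) → Meet F v) ∧
        (T.cell c P = known false ↔
          ∀ F : Fin m → Finset (Fin n), Le P (full (bits F)) → ¬ Meet F v)) ∧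
    -- (3) the orders
    TreeLike ℝ ∧ ∀ A : Type, TreeLike (Flat A) :=
  ⟨fun _ _ _ _ hk hkN hδ hδ2 ht => lowerK hk hkN hδ hδ2 ht,
    fun k m n => ⟨table k m n, table_solves k m n, fun _ _ => Finset.card_singleton _,
      fun v => ⟨num k m v, fun P => ⟨rfl, by rw [table_cell]; exact (table_sem v P).1,
        by rw [table_cell]; exact (table_sem v P).2⟩⟩⟩,
    treeLike_real, fun _ => Flat.treeLike⟩

end Pool.Agent.Results.MP_d985bf_lc.UnknownInputStructures
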